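import Pool.Agent.MP_c1891a_nt.G43.Bas

/-! Two very small values are related by a bounded monomial map. -/

namespace Pool.Agent.MP_c1891a_nt.G43

open Finset Module H43

theorem PairN_exh (α : Type) [Countable α] [Nonempty α] :
    ∃ E : ℕ → Finset α, ∀ a, ∃ n₀, ∀ n, n₀ ≤ n → a ∈ E n := by
  classical
  obtain ⟨f, hf⟩ := exists_surjective_nat α
  refine ⟨fun n => (range (n + 1)).image f, fun a => ?_⟩
  obtain ⟨k, rfl⟩ := hf a
  exact ⟨k, fun n hn => mem_image_of_mem f (mem_range.2 (Nat.lt_succ_of_le hn))⟩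

theorem PairN_mono {N M : ℕ} (hN : 0 < N) (hNM : N ≤ M) {a b : ℝ} (hab : a ≤ b) (hb : 0 ≤ b) :
    (N : ℝ) ^ a ≤ (M : ℝ) ^ b :=
  (Real.rpow_le_rpow_of_exponent_le (by exact_mod_cast hN) hab).trans
    (Real.rpow_le_rpow (Nat.cast_nonneg _) (by exact_mod_cast hNM) hb)

variable {Λ : Type} [AddCommGroup Λ]

theorem PairN_ext {n : Type} (b : Basis n ℤ Λ) {f g : Λ → ℂ} (f0 : f 0 = g 0)
    (hf : ∀ x y, f (x + y) = f x * f y) (hg : ∀ x y, g (x + y) = g x * g y)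
    (hf' : ∀ (k : ℤ) x, f (k • x) = f x ^ k) (hg' : ∀ (k : ℤ) x, g (k • x) = g x ^ k)
    (h : ∀ i, f (b i) = g (b i)) (l : Λ) : f l = g l := by
  refine Submodule.span_induction (p := fun l _ => f l = g l) ?_ f0 ?_ ?_ (b.mem_span l)
  · rintro _ ⟨i, rfl⟩
    exact h i
  · intro x y _ _ hx hy
    rw [hf, hg, hx, hy]
  · intro k x _ hx
    rw [hf', hg', hx]

/-- the character of the pair. -/
noncomputable def PairN_ch (χ χ' : AddChar Λ ℂ) : AddChar (Λ × Λ) ℂ :=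
  χ.compAddMonoidHom (AddMonoidHom.fst Λ Λ) * χ'.compAddMonoidHom (AddMonoidHom.snd Λ Λ)

theorem PairN_ch_apply (χ χ' : AddChar Λ ℂ) (l : Λ × Λ) : PairN_ch χ χ' l = χ l.1 * χ' l.2 := rfl

variable [Module.Free ℤ Λ] [Module.Finite ℤ Λ]

/-- the refined systems have no very small values, uniformly. -/
theorem PairN_ref (h4 : SSat) (h5 : SExcl) (S : Sys Λ) (hI : S.Int) (hF : S.Full) :
    ∃ (δ : ℝ) (T : Finset Λ), 0 < δ ∧ δ ≤ 1 ∧ ∀ u : Λ →ₗ[ℤ] ℤ, u ≠ 0 → ∀ χ : AddChar Λ ℂ,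
      IsOfFinOrder χ → NoRel T χ → ∀ M : ℕ, orderOf χ ≤ M →
        Real.exp (-(M : ℝ) ^ (1 - δ)) ≤ (S.ref u).ρ χ := by
  classical
  obtain ⟨𝒲, -, hW⟩ := (h4 Λ S.ι S.I S.m).1
  have key : ∀ W : Submodule ℤ Λ, ∃ (δ : ℝ) (T : Finset Λ), 0 < δ ∧ ((S.ref W.mkQ).Good →
      ∀ χ : AddChar Λ ℂ, IsOfFinOrder χ → NoRel T χ →
        Real.exp (-(orderOf χ : ℝ) ^ (1 - δ)) ≤ (S.ref W.mkQ).ρ χ) := by
    intro W
    by_cases hG : (S.ref W.mkQ).Good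
    · obtain ⟨δ, T, h0, h⟩ := h5 Λ _ (hI.ref _) hG
      exact ⟨δ, T, h0, fun _ => h⟩
    · exact ⟨1, ∅, one_pos, fun h => absurd h hG⟩
  choose δ T h0 hk using key
  obtain ⟨δ₁, hδ₁, hδ1, hle⟩ : ∃ δ₁ : ℝ, 0 < δ₁ ∧ δ₁ ≤ 1 ∧ ∀ W ∈ 𝒲, δ₁ ≤ δ W := by
    clear hW
    induction 𝒲 using Finset.induction_on with
    | empty => exact ⟨1, one_pos, le_rfl, by simp⟩
    | insert W s _ ih =>
      obtain ⟨δ₁, a, b, c⟩ := ih
      refine ⟨min δ₁ (δ W), lt_min a (h0 W), (min_le_left _ _).trans b, fun V hV => ?_⟩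
      rcases mem_insert.1 hV with rfl | hV
      · exact min_le_right _ _
      · exact (min_le_left _ _).trans (c V hV)
  refine ⟨δ₁, 𝒲.biUnion T, hδ₁, hδ1, fun u hu χ hχ hT M hM => ?_⟩
  obtain ⟨W, hW𝒲, hWu, hcl⟩ := hW _ (sat_ker u)
  have hG : (S.ref W.mkQ).Good := (hF.2 u hu).ref_of _ fun i _ k _ e => by
    have : S.m i - S.m k ∈ W := (Submodule.Quotient.eq W).1 e
    have := hWu this
    rwa [LinearMap.mem_ker, map_sub, sub_eq_zero] at this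
  refine le_trans ?_ ((hk W hG χ hχ (hT.mono (subset_biUnion_of_mem T hW𝒲))).trans
    (S.ρ_ref_le W.mkQ u (fun i hi k hk e => ?_) χ))
  · exact Real.exp_le_exp.2 (neg_le_neg (PairN_mono hχ.orderOf_pos hM
      (by linarith [hle W hW𝒲]) (by linarith)))
  · exact (Submodule.Quotient.eq W).2 (hcl i hi k hk (by
      rw [LinearMap.mem_ker, map_sub, e, sub_self]))

/-- two very small values lie on an anomalous coset of the pair. -/
theorem PairN_an (h1 : SAnomN) (h3 : SNz) (h4 : SSat) (h5 : SExcl) (S : Sys Λ) (hI : S.Int)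
    (hF : S.Full) (hd : 0 < finrank ℤ Λ) :
    ∃ (δ : ℝ) (T : Finset Λ), 0 < δ ∧ ∀ (χ χ' : AddChar Λ ℂ) (M : ℕ), 0 < M → χ ^ M = 1 →
      χ' ^ M = 1 → NoRel T χ → NoRel T χ' → S.ρ χ ≤ Real.exp (-(M : ℝ) ^ (1 - δ)) →
      S.ρ χ' ≤ Real.exp (-(M : ℝ) ^ (1 - δ)) →
      ∃ D : AnD S.pair, ∀ l, D.v l = 0 → D.w l = 0 → χ l.1 * χ' l.2 = D.η l := by
  classical
  obtain ⟨δ₁, T₁, hδ₁, hδ1, hT₁⟩ := PairN_ref h4 h5 S hI hF
  obtain ⟨γ, hγ, hA⟩ := h1 (Λ × Λ) S.pair hI.pair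
  obtain ⟨T₂, hT₂⟩ := h3 Λ S fun F _ _ x hx ht => by
    have := hF.1 F x hx _ ht
    omega
  set δ' := min γ (δ₁ / 2) with hδ'
  have p1 : 0 < δ' := lt_min hγ (by linarith)
  have p2 : δ' ≤ δ₁ / 2 := min_le_right _ _
  obtain ⟨M₀, hM₀⟩ := hA δ' p1 (min_le_left _ _)
  obtain ⟨N₁, hN₁⟩ : ∃ N₁ : ℕ, ∀ N : ℕ, N₁ ≤ N → 2 ≤ (N : ℝ) ^ (δ' / 4) := by
    have := ((tendsto_rpow_atTop (y := δ' / 4) (by linarith)).comp
      tendsto_natCast_atTop_atTop).eventually_ge_atTop 2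
    exact Filter.eventually_atTop.1 this
  have := Module.nontrivial_of_finrank_pos hd
  obtain ⟨l₀, hl₀⟩ := exists_ne (0 : Λ)
  refine ⟨δ' / 4, insert ((max (max M₀ N₁) 2).factorial • l₀) (T₁ ∪ T₂), by linarith,
    fun χ χ' M hM e1 e2 r1 r2 s1 s2 => ?_⟩
  set ψ := PairN_ch χ χ' with hψ
  have a1 : ∀ l, ψ (l, 0) = χ l := fun l => by simp [hψ, PairN_ch_apply]
  have a2 : ∀ l, ψ (0, l) = χ' l := fun l => by simp [hψ, PairN_ch_apply]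
  have eψ : ψ ^ M = 1 := by
    ext l
    rw [AddChar.pow_apply, hψ, PairN_ch_apply, mul_pow, char_pow_one e1, char_pow_one e2, mul_one,
      AddChar.one_apply]
  have f1 := fin_of_pow hM e1
  have f2 := fin_of_pow hM e2
  have fψ := fin_of_pow hM eψ
  have o1 : orderOf χ ≤ orderOf ψ := Nat.le_of_dvd fψ.orderOf_pos (orderOf_dvd_of_pow_eq_one (by
    ext l
    rw [AddChar.pow_apply, ← a1, char_pow_one (pow_orderOf_eq_one ψ), AddChar.one_apply]))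
  have o2 : orderOf χ' ≤ orderOf ψ := Nat.le_of_dvd fψ.orderOf_pos (orderOf_dvd_of_pow_eq_one (by
    ext l
    rw [AddChar.pow_apply, ← a2, char_pow_one (pow_orderOf_eq_one ψ), AddChar.one_apply]))
  have o3 : orderOf ψ ≤ M := Nat.le_of_dvd hM (orderOf_dvd_of_pow_eq_one eψ)
  have o4 : max (max M₀ N₁) 2 ≤ orderOf ψ := (r1.le_order f1 hl₀ (mem_insert_self _ _)).trans o1
  have hρ : S.pair.ρ ψ = S.ρ χ + S.ρ χ' := S.ρ_pair S.κ S.κ a1 a2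
  have hT1 : T₁ ⊆ insert ((max (max M₀ N₁) 2).factorial • l₀) (T₁ ∪ T₂) :=
    subset_union_left.trans (subset_insert _ _)
  have hT2 : T₂ ⊆ insert ((max (max M₀ N₁) 2).factorial • l₀) (T₁ ∪ T₂) :=
    subset_union_right.trans (subset_insert _ _)
  have hne : S.pair.ρ ψ ≠ 0 := by
    have := lt_of_le_of_ne (S.ρ_nonneg χ) (hT₂ χ f1 (r1.mono hT2)).symm
    have := S.ρ_nonneg χ'
    rw [hρ]
    positivity
  have hN1 : (1 : ℝ) < (orderOf ψ : ℝ) := by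
    have : 2 ≤ orderOf ψ := (le_max_right _ _).trans o4
    exact_mod_cast this
  have hsm : S.pair.ρ ψ ≤ Real.exp (-(orderOf ψ : ℝ) ^ (1 - δ' / 2)) := by
    have b1 : (orderOf ψ : ℝ) ^ (1 - δ' / 4) ≤ (M : ℝ) ^ (1 - δ' / 4) :=
      PairN_mono fψ.orderOf_pos o3 le_rfl (by linarith)
    have b2 : (orderOf ψ : ℝ) ^ (1 - δ' / 4) =
        (orderOf ψ : ℝ) ^ (1 - δ' / 2) * (orderOf ψ : ℝ) ^ (δ' / 4) := by
      rw [← Real.rpow_add (by linarith)]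
      congr 1
      ring
    have b3 := hN₁ _ (((le_max_right _ _).trans (le_max_left _ _)).trans o4)
    have b4 : 1 ≤ (orderOf ψ : ℝ) ^ (1 - δ' / 2) := Real.one_le_rpow hN1.le (by linarith)
    have b5 : (orderOf ψ : ℝ) ^ (1 - δ' / 2) + 1 ≤ (M : ℝ) ^ (1 - δ' / 4) := by nlinarith
    have b6 : Real.exp (-(M : ℝ) ^ (1 - δ' / 4)) * Real.exp 1 ≤
        Real.exp (-(orderOf ψ : ℝ) ^ (1 - δ' / 2)) := by
      rw [← Real.exp_add]
      exact Real.exp_le_exp.2 (by linarith)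
    have b7 : (2 : ℝ) ≤ Real.exp 1 := by linarith [Real.add_one_le_exp 1]
    have b8 := Real.exp_pos (-(M : ℝ) ^ (1 - δ' / 4))
    rw [hρ]
    nlinarith
  rcases hM₀ ψ (((le_max_left _ _).trans (le_max_left _ _)).trans o4) hne hsm with
    ⟨u, hu, hle⟩ | h
  · exfalso
    let u₁ : Λ →ₗ[ℤ] ℤ := u ∘ₗ LinearMap.inl ℤ Λ Λ
    let u₂ : Λ →ₗ[ℤ] ℤ := u ∘ₗ LinearMap.inr ℤ Λ Λ
    have c1 : (S.ref u₁).ρ χ + (S.ref u₂).ρ χ' ≤ (S.pair.ref u).ρ ψ := by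
      refine (S.ρ_pair (fun i => (S.κ i, u₁ (S.m i))) (fun i => (S.κ i, u₂ (S.m i)))
        a1 a2).symm.le.trans (S.pair.ρ_re_le _ _ ?_ ψ)
      rintro (i | i) _ (k | k) _ e <;> obtain ⟨e1, e2⟩ := Prod.ext_iff.1 e
      · exact congrArg Sum.inl (Prod.ext (Sum.inl.inj e1) e2)
      · exact absurd e1 Sum.inl_ne_inr
      · exact absurd e1 Sum.inr_ne_inl
      · exact congrArg Sum.inr (Prod.ext (Sum.inr.inj e1) e2)
    have c2 : Real.exp (-(orderOf ψ : ℝ) ^ (1 - δ₁)) ≤ (S.ref u₁).ρ χ + (S.ref u₂).ρ χ' := by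
      by_cases z1 : u₁ = 0
      · have z2 : u₂ ≠ 0 := fun z2 => hu (LinearMap.prod_ext z1 z2)
        linarith [hT₁ u₂ z2 χ' f2 (r2.mono hT1) _ o2, (S.ref u₁).ρ_nonneg χ]
      · linarith [hT₁ u₁ z1 χ f1 (r1.mono hT1) _ o1, (S.ref u₂).ρ_nonneg χ']
    have c3 := Real.exp_le_exp.1 (c2.trans (c1.trans hle))
    have c4 : (orderOf ψ : ℝ) ^ (1 - δ₁) < (orderOf ψ : ℝ) ^ (1 - δ') :=
      Real.rpow_lt_rpow_of_exponent_lt hN1 (by linarith)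
    linarith
  · exact h

omit [Module.Free ℤ Λ] in
/-- a lattice of full rank that meets the first factor trivially is a graph up to finite index. -/
theorem PairN_graph (L : Submodule ℤ (Λ × Λ)) (hL : ∀ l ∈ L, l.2 = 0 → l = 0)
    (hr : finrank ℤ Λ ≤ finrank ℤ L) {n : Type} [Fintype n] (b : Basis n ℤ Λ) :
    ∃ (s₀ : ℕ) (φ : Λ →ₗ[ℤ] Λ), 0 < s₀ ∧ ∀ i, (-φ (b i), s₀ • b i) ∈ L := by
  classical
  let p : L →ₗ[ℤ] Λ := LinearMap.snd ℤ Λ Λ ∘ₗ L.subtype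
  have hp : Function.Injective p := (injective_iff_map_eq_zero p).2 fun l h =>
    Subtype.ext (hL l l.2 h)
  have h1 := LinearMap.finrank_range_of_inj hp
  have h2 := (LinearMap.range p).finrank_quotient_add_finrank
  have h3 : finrank ℤ (Λ ⧸ LinearMap.range p) = 0 := by omega
  have h4 : ∀ l : Λ, ∃ k : ℤ, k ≠ 0 ∧ k • l ∈ LinearMap.range p := fun l => by
    obtain ⟨k, hk, e⟩ := Module.finrank_eq_zero_iff.1 h3 (Submodule.Quotient.mk l)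
    refine ⟨k, hk, (Submodule.Quotient.mk_eq_zero _).1 ?_⟩
    rw [Submodule.Quotient.mk_smul, e]
  choose k hk hm using h4
  have h5 : ∀ i, ∃ ℓ : L, p ℓ = (∏ j, k (b j)).natAbs • b i := fun i => by
    obtain ⟨c, hc⟩ : k (b i) ∣ ((∏ j, k (b j)).natAbs : ℤ) :=
      (Int.dvd_natAbs).2 (dvd_prod_of_mem _ (mem_univ i))
    have : ((∏ j, k (b j)).natAbs : ℤ) • b i ∈ LinearMap.range p := by
      rw [hc, mul_comm, mul_smul]
      exact Submodule.smul_mem _ _ (hm _)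
    rwa [natCast_zsmul] at this
  choose ℓ hℓ using h5
  refine ⟨(∏ j, k (b j)).natAbs, b.constr ℤ fun i => -(ℓ i).1.1,
    Int.natAbs_pos.2 (prod_ne_zero_iff.2 fun j _ => hk _), fun i => ?_⟩
  rw [Basis.constr_basis, neg_neg, ← hℓ i]
  exact (ℓ i).2

theorem sPairN (h1 : SAnomN) (h2 : SStr) (h3 : SNz) (h4 : SSat) (h5 : SExcl) (h6 : SPairT) :
    SPairN := by
  classical
  intro Λ _ _ _ S hI hF hd
  obtain ⟨δ, T₀, hδ, hA⟩ := PairN_an h1 h3 h4 h5 S hI hF hd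
  have : Countable Λ := Finsupp.Countable.of_moduleFinite (R := ℤ)
  have : Countable (Λ →ₗ[ℤ] Λ) := Finsupp.Countable.of_moduleFinite (R := ℤ)
  obtain ⟨E, hE⟩ := PairN_exh Λ
  obtain ⟨G, hG⟩ := PairN_exh (ℕ × (Λ →ₗ[ℤ] Λ))
  by_contra hc
  have key : ∀ n : ℕ, ∃ (χ χ' : AddChar Λ ℂ) (D : AnD S.pair), NoRel (E n) χ ∧ NoRel (E n) χ' ∧
      (∀ l, D.v l = 0 → D.w l = 0 → χ l.1 * χ' l.2 = D.η l) ∧
      ∀ φ ∈ G n, 0 < φ.1 → ¬ ∀ l, χ' l ^ φ.1 = χ (φ.2 l) := by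
    intro n
    by_contra hn
    refine hc ⟨δ, T₀ ∪ E n, (G n).filter fun φ => 0 < φ.1, hδ, fun φ h => (mem_filter.1 h).2,
      fun χ χ' M hM e1 e2 r1 r2 s1 s2 => ?_⟩
    obtain ⟨D, hD⟩ := hA χ χ' M hM e1 e2 (r1.mono subset_union_left) (r2.mono subset_union_left)
      s1 s2
    by_contra hφ
    exact hn ⟨χ, χ', D, r1.mono subset_union_right, r2.mono subset_union_right, hD,
      fun φ a b c => hφ ⟨φ, mem_filter.2 ⟨a, b⟩, c⟩⟩
  choose χ χ' D r1 r2 hD hφ using key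
  obtain ⟨F, _, _, x, L, t, hz, ht, hr, ha, hs⟩ := h2 (Λ × Λ) S.pair D
  have hs' : ∀ T : Finset (Λ × Λ), (∀ l ∈ T, l ∈ L) → ∃ s : ℕ, 0 < s ∧ ∀ n₀, ∃ n, n₀ ≤ n ∧
      ∀ l ∈ T, (χ n l.1 * χ' n l.2) ^ s = 1 := fun T hT => by
    obtain ⟨s, s0, h⟩ := hs T hT
    refine ⟨s, s0, fun n₀ => ?_⟩
    obtain ⟨n, hn, h⟩ := h n₀
    exact ⟨n, hn, fun l hl => by rw [hD n l (h l hl).1 (h l hl).2.1, (h l hl).2.2]⟩
  have hsm : ∀ (s : ℕ) (l : Λ), 0 < s → l ≠ 0 → s • l ≠ 0 := fun s l s0 hl e => by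
    rw [← natCast_zsmul] at e
    exact hl ((smul_eq_zero.1 e).resolve_left (by exact_mod_cast s0.ne'))
  have hL : ∀ l ∈ L, l.1 = 0 ∨ l.2 = 0 → l = 0 := by
    intro l hl h
    obtain ⟨s, s0, hn⟩ := hs' {l} (by simpa using hl)
    by_contra hne
    rcases h with h | h
    · have h' : l.2 ≠ 0 := fun e => hne (Prod.ext h e)
      obtain ⟨n₀, h0⟩ := hE (s • l.2)
      obtain ⟨n, hn, e⟩ := hn n₀
      refine r2 n _ (h0 n hn) (hsm s _ s0 h') ?_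
      have := e l (mem_singleton_self l)
      rwa [h, AddChar.map_zero_eq_one, one_mul, ← AddChar.map_nsmul_eq_pow] at this
    · have h' : l.1 ≠ 0 := fun e => hne (Prod.ext e h)
      obtain ⟨n₀, h0⟩ := hE (s • l.1)
      obtain ⟨n, hn, e⟩ := hn n₀
      refine r1 n _ (h0 n hn) (hsm s _ s0 h') ?_
      have := e l (mem_singleton_self l)
      rwa [h, AddChar.map_zero_eq_one, mul_one, ← AddChar.map_nsmul_eq_pow] at this
  have hrk := h6 Λ S hF F x L t hz ht (by rw [Module.finrank_prod] at hr; omega) ha hL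
  let b := Module.finBasis ℤ Λ
  obtain ⟨s₀, φ, s0, hb⟩ := PairN_graph L (fun l hl h => hL l hl (Or.inr h)) hrk b
  obtain ⟨s, s1, hn⟩ := hs' (univ.image fun i => (-φ (b i), s₀ • b i)) (by simpa using hb)
  obtain ⟨n₀, h0⟩ := hG (s₀ * s, s • φ)
  obtain ⟨n, hn, e⟩ := hn n₀
  refine hφ n _ (h0 n hn) (Nat.mul_pos s0 s1) (PairN_ext b (f := fun l => χ' n l ^ (s₀ * s))
    (g := fun l => χ n ((s • φ) l)) (by simp) (fun x y => ?_) (fun x y => ?_) (fun k x => ?_)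
    (fun k x => ?_) fun i => ?_)
  · rw [AddChar.map_add_eq_mul, mul_pow]
  · rw [map_add, AddChar.map_add_eq_mul]
  · rw [AddChar.map_zsmul_eq_zpow, ← zpow_natCast, ← zpow_natCast, zpow_comm]
  · rw [map_zsmul, AddChar.map_zsmul_eq_zpow]
  · have := e _ (mem_image_of_mem _ (mem_univ i))
    simp only [AddChar.map_neg_eq_inv, AddChar.map_nsmul_eq_pow, mul_pow, inv_pow] at this
    rw [inv_mul_eq_one₀ (pow_ne_zero _ (char_ne _ _))] at this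
    show χ' n (b i) ^ (s₀ * s) = χ n (s • φ (b i))
    rw [pow_mul, ← this, AddChar.map_nsmul_eq_pow]

end Pool.Agent.MP_c1891a_nt.G43
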