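import Pool.Agent.MP_c1891a_nt.G43.SpecA

/-
Evaluation at points of the unit polydisc and the partial derivatives on a Tate algebra.
-/

namespace Pool.Agent.MP_c1891a_nt.G43

open Finset
open scoped NNReal

theorem TPt_coeff_le {K σ : Type} [NormedField K] (p : MvPolynomial σ K) (α : σ →₀ ℕ) :
    ‖p.coeff α‖₊ ≤ gn p := by
  by_cases h : α ∈ p.support
  · exact Finset.le_sup (f := fun α => ‖p.coeff α‖₊) h
  · rw [MvPolynomial.notMem_support_iff.1 h]
    simp

theorem TPt_eval_le {K : Type} [NormedField K] [IsUltrametricDist K] {d : ℕ} (y : Fin d → K)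
    (hy : ∀ i, ‖y i‖ ≤ 1) (p : MvPolynomial (Fin d) K) :
    ‖MvPolynomial.aeval y p‖₊ ≤ gn p := by
  have h0 : MvPolynomial.aeval y p = MvPolynomial.eval y p := rfl
  rw [h0, MvPolynomial.eval_eq']
  refine IsUltrametricDist.nnnorm_sum_le_of_forall_le fun α _ => ?_
  rw [nnnorm_mul]
  refine (mul_le_of_le_one_right zero_le ?_).trans (TPt_coeff_le p α)
  rw [nnnorm_prod]
  refine Finset.prod_le_one (fun _ _ => zero_le) fun i _ => ?_
  rw [nnnorm_pow]
  exact pow_le_one₀ zero_le (hy i)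

theorem TPt_pderiv_le {K σ : Type} [NormedField K] [IsUltrametricDist K] (i : σ)
    (p : MvPolynomial σ K) : gn (MvPolynomial.pderiv i p) ≤ gn p := by
  refine Finset.sup_le fun α _ => ?_
  rw [MvPolynomial.coeff_pderiv, nnnorm_mul]
  refine (mul_le_of_le_one_right zero_le ?_).trans (TPt_coeff_le p _)
  have := IsUltrametricDist.nnnorm_natCast_le_one K (α i + 1)
  simpa using this

theorem TPt_ext {K A B : Type} [NontriviallyNormedField K] [NormedCommRing A] [NormedAlgebra K A]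
    [NormedAddCommGroup B] [NormedSpace K B] [CompleteSpace B] {d : ℕ} {Y : Fin d → A}
    (h : IsTate K Y) (f : MvPolynomial (Fin d) K →ₗ[K] B) (hf : ∀ p, ‖f p‖₊ ≤ gn p) :
    ∃ F : A →L[K] B, (∀ p, F (MvPolynomial.aeval Y p) = f p) ∧ ∀ a, ‖F a‖ ≤ ‖a‖ := by
  let e : MvPolynomial (Fin d) K →ₗ[K] A := (MvPolynomial.aeval Y).toLinearMap
  have hd : DenseRange e := h.2
  have hn : ∀ p, ‖f p‖ ≤ 1 * ‖e p‖ := by
    intro p
    rw [one_mul]
    have h1 : ‖f p‖₊ ≤ ‖e p‖₊ := (hf p).trans (h.1 p).ge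
    exact h1
  refine ⟨f.extendOfNorm e, fun p => LinearMap.extendOfNorm_eq hd ⟨1, hn⟩ p, fun a => ?_⟩
  simpa using LinearMap.norm_extendOfNorm_apply_le hd 1 hn a

theorem sTPt : STPt := by
  intro K A _ _ _ _ _ d Y h y hy
  obtain ⟨F, hF, hn⟩ := TPt_ext h (MvPolynomial.aeval y).toLinearMap (TPt_eval_le y hy)
  have hF' : ∀ p, F (MvPolynomial.aeval Y p) = MvPolynomial.aeval y p := hF
  have h1 : F 1 = 1 := by simpa using hF' 1
  have hm : ∀ a b, F (a * b) = F a * F b := by
    intro a b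
    refine h.2.induction_on₂ (p := fun a b => F (a * b) = F a * F b) ?_ ?_ a b
    · exact isClosed_eq (by fun_prop) (by fun_prop)
    · intro p q
      rw [← map_mul, hF', hF', hF', map_mul]
  refine ⟨AlgHom.ofLinearMap F.toLinearMap h1 hm, fun i => ?_, hn⟩
  simpa using hF' (MvPolynomial.X i)

theorem sTDer : STDer := by
  intro K A _ _ _ _ _ d Y h i
  obtain ⟨F, hF, hn⟩ := TPt_ext h
    ((MvPolynomial.aeval Y).toLinearMap ∘ₗ (MvPolynomial.pderiv i).toLinearMap)
    (fun p => (h.1 (MvPolynomial.pderiv i p)).le.trans (TPt_pderiv_le i p))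
  have hF' : ∀ p, F (MvPolynomial.aeval Y p) = MvPolynomial.aeval Y (MvPolynomial.pderiv i p) := hF
  have hm : ∀ a b, F (a * b) = a • F b + b • F a := by
    intro a b
    refine h.2.induction_on₂ (p := fun a b => F (a * b) = a • F b + b • F a) ?_ ?_ a b
    · simp only [smul_eq_mul]
      exact isClosed_eq (by fun_prop) (by fun_prop)
    · intro p q
      rw [← map_mul, hF', hF', hF', Derivation.leibniz]
      simp only [smul_eq_mul, map_add, map_mul]
  refine ⟨Derivation.mk' F.toLinearMap hm, fun j => ?_, hn⟩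
  have := hF' (MvPolynomial.X j)
  rw [MvPolynomial.aeval_X] at this
  rw [Derivation.coe_mk']
  change F (Y j) = _
  rw [this]
  by_cases hj : j = i
  · subst hj
    simp
  · rw [MvPolynomial.pderiv_X_of_ne hj]
    simp [hj]

end Pool.Agent.MP_c1891a_nt.G43
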